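import Pool.Agent.V11121.Pure.Reduce

/-!
# Saturation and extremal numbers for `J_s` and `∨_s`

For every `s ≥ 3` and `n ≥ 1` the four numbers `sat(n,n,J_s)`, `ex(n,n,J_s)`,
`sat*([n]²,∨_s)`, `La*([n]²,∨_s)` are all equal to `n² - (n+1-s)²` (truncated subtraction in
`n+1-s`).  In fact every `J_s`-saturated matrix and every strong `∨_s`-saturated set has exactly
this size.
-/

namespace Pool.Agent.Results.MP_eab1c6_co.SaturationPurity

open Pool.Agent.V11121.Pure

/-! ### Definitions -/

/-- The 0-1 matrix `A` (given by its set of 1-entries) contains the 0-1 matrix `M`: some rows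
`r 0 < r 1 < ...` and columns `c 0 < c 1 < ...` of `A` carry a 1 wherever `M` has a 1. -/
def Contains {k l n m : ℕ} (M : Finset (Fin k × Fin l)) (A : Finset (Fin n × Fin m)) : Prop :=
  ∃ (r : Fin k → Fin n) (c : Fin l → Fin m), StrictMono r ∧ StrictMono c ∧
    ∀ p ∈ M, (r p.1, c p.2) ∈ A

/-- `A` avoids `M`, and changing any 0-entry of `A` to 1 creates a copy of `M`. -/
def MatrixSaturated {k l n m : ℕ} (M : Finset (Fin k × Fin l)) (A : Finset (Fin n × Fin m)) :
    Prop :=
  ¬ Contains M A ∧ ∀ v, v ∉ A → Contains M (insert v A)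

/-- The maximum number of 1-entries of an `n × m` matrix avoiding `M`. -/
noncomputable def ex {k l : ℕ} (n m : ℕ) (M : Finset (Fin k × Fin l)) : ℕ :=
  sSup {c | ∃ A : Finset (Fin n × Fin m), ¬ Contains M A ∧ A.card = c}

/-- The minimum number of 1-entries of an `M`-saturated `n × m` matrix. -/
noncomputable def sat {k l : ℕ} (n m : ℕ) (M : Finset (Fin k × Fin l)) : ℕ :=
  sInf {c | ∃ A : Finset (Fin n × Fin m), MatrixSaturated M A ∧ A.card = c}

/-- The matrix `J_s`: 1-entries at the positions `(i, i+1)` and at `(s, 1)` (here counted from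
`0`: the positions `(i, i+1)` and `(s-1, 0)`). -/
def J (s : ℕ) : Finset (Fin s × Fin s) :=
  Finset.univ.filter (fun p => p.1.val + 1 = p.2.val ∨ (p.1.val + 1 = s ∧ p.2.val = 0))

/-- The order of the poset `∨_s`: `none` is the least element `a`, the elements `some i` are the
`b_i`, and there are no other strict relations. -/
def veeLE (s : ℕ) (p q : Option (Fin s)) : Prop := p = none ∨ p = q

/-- `F ⊆ [n]²` (ordered coordinatewise) contains a strong copy of the poset `(P, le)`. -/
def StrongCopy {P : Type} (le : P → P → Prop) {n : ℕ} (F : Finset (Fin n × Fin n)) : Prop :=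
  ∃ f : P → Fin n × Fin n, Function.Injective f ∧ (∀ p, f p ∈ F) ∧ ∀ p q, le p q ↔ f p ≤ f q

/-- `F` is strong `(P, le)`-saturated. -/
def StrongSaturated {P : Type} (le : P → P → Prop) {n : ℕ} (F : Finset (Fin n × Fin n)) : Prop :=
  ¬ StrongCopy le F ∧ ∀ v, v ∉ F → StrongCopy le (insert v F)

/-- The largest size of a strong `(P, le)`-free subset of `[n]²`. -/
noncomputable def LaStar {P : Type} (n : ℕ) (le : P → P → Prop) : ℕ :=
  sSup {c | ∃ F : Finset (Fin n × Fin n), ¬ StrongCopy le F ∧ F.card = c}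

/-- The smallest size of a strong `(P, le)`-saturated subset of `[n]²`. -/
noncomputable def satStar {P : Type} (n : ℕ) (le : P → P → Prop) : ℕ :=
  sInf {c | ∃ F : Finset (Fin n × Fin n), StrongSaturated le F ∧ F.card = c}

/-! ### Translation to `ℤ × ℤ` -/

/-- Matrix cells: the row counted from below is the second coordinate. -/
def phi (n : ℕ) : (Fin n × Fin n) ↪ ℤ × ℤ where
  toFun u := ((u.2.val : ℤ) + 1, (n : ℤ) - u.1.val)
  inj' := by
    rintro ⟨a1, a2⟩ ⟨b1, b2⟩ hab
    simp only [Prod.mk.injEq] at hab ⊢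
    exact ⟨Fin.ext (by omega), Fin.ext (by omega)⟩

/-- Grid points. -/
def psi (n : ℕ) : (Fin n × Fin n) ↪ ℤ × ℤ where
  toFun u := ((u.1.val : ℤ) + 1, (u.2.val : ℤ) + 1)
  inj' := by
    rintro ⟨a1, a2⟩ ⟨b1, b2⟩ hab
    simp only [Prod.mk.injEq] at hab ⊢
    exact ⟨Fin.ext (by omega), Fin.ext (by omega)⟩

theorem phi_box {n : ℕ} (u : Fin n × Fin n) : phi n u ∈ Box (n : ℤ) := by
  rw [mem_Box]
  have h1 := u.1.isLt
  have h2 := u.2.isLt
  simp only [phi, Function.Embedding.coeFn_mk]
  omega

theorem psi_box {n : ℕ} (u : Fin n × Fin n) : psi n u ∈ Box (n : ℤ) := by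
  rw [mem_Box]
  have h1 := u.1.isLt
  have h2 := u.2.isLt
  simp only [psi, Function.Embedding.coeFn_mk]
  omega

theorem phi_surj {n : ℕ} {z : ℤ × ℤ} (hz : z ∈ Box (n : ℤ)) : ∃ u, phi n u = z := by
  rw [mem_Box] at hz
  refine ⟨(⟨((n : ℤ) - z.2).toNat, by omega⟩, ⟨(z.1 - 1).toNat, by omega⟩), ?_⟩
  simp only [phi, Function.Embedding.coeFn_mk]
  refine Prod.ext ?_ ?_ <;> simp only <;> omega

theorem psi_surj {n : ℕ} {z : ℤ × ℤ} (hz : z ∈ Box (n : ℤ)) : ∃ u, psi n u = z := by
  rw [mem_Box] at hz
  refine ⟨(⟨(z.1 - 1).toNat, by omega⟩, ⟨(z.2 - 1).toNat, by omega⟩), ?_⟩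
  simp only [psi, Function.Embedding.coeFn_mk]
  refine Prod.ext ?_ ?_ <;> simp only <;> omega

/-- General translation of saturation. -/
theorem satZ_of {n : ℕ} {d k : ℤ} (φ : (Fin n × Fin n) ↪ ℤ × ℤ)
    (hbox : ∀ u, φ u ∈ Box (n : ℤ)) (hsurj : ∀ z ∈ Box (n : ℤ), ∃ u, φ u = z)
    (C : Finset (Fin n × Fin n) → Prop) (hC : ∀ A, C A ↔ Has d k (A.map φ))
    {A : Finset (Fin n × Fin n)} (h1 : ¬ C A) (h2 : ∀ v, v ∉ A → C (insert v A)) :
    SatZ d k n (A.map φ) := by
  refine ⟨?_, fun h => h1 ((hC A).mpr h), ?_⟩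
  · intro z hz
    obtain ⟨u, _, rfl⟩ := Finset.mem_map.mp hz
    exact hbox u
  · intro z hz hzA
    obtain ⟨u, rfl⟩ := hsurj z hz
    have hu : u ∉ A := fun h => hzA (Finset.mem_map_of_mem φ h)
    have := (hC _).mp (h2 u hu)
    rwa [Finset.map_insert] at this

theorem pull {n : ℕ} (φ : (Fin n × Fin n) ↪ ℤ × ℤ) {A : Finset (Fin n × Fin n)} {k : ℤ}
    {a : ℤ → ℤ × ℤ} (h : ∀ j, 1 ≤ j → j ≤ k → a j ∈ A.map φ) (u0 : Fin n × Fin n) :
    ∃ u : ℤ → Fin n × Fin n, ∀ j, 1 ≤ j → j ≤ k → u j ∈ A ∧ φ (u j) = a j := by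
  have : ∀ j, ∃ x : Fin n × Fin n, 1 ≤ j → j ≤ k → x ∈ A ∧ φ x = a j := by
    intro j
    by_cases hj : 1 ≤ j ∧ j ≤ k
    · obtain ⟨x, hx, hxa⟩ := Finset.mem_map.mp (h j hj.1 hj.2)
      exact ⟨x, fun _ _ => ⟨hx, hxa⟩⟩
    · exact ⟨u0, fun h1 h2 => absurd ⟨h1, h2⟩ hj⟩
  choose u hu using this
  exact ⟨u, fun j h1 h2 => hu j h1 h2⟩

/-- Indices of `Fin s` from integers. -/
def fi (s : ℕ) (hs : 0 < s) (j : ℤ) : Fin s := ⟨min j.toNat (s - 1), by omega⟩

theorem fi_val {s : ℕ} (hs : 0 < s) {j : ℤ} (h1 : 0 ≤ j) (h2 : j < s) :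
    ((fi s hs j).val : ℤ) = j := by
  simp only [fi]
  omega

theorem contains_iff {s n : ℕ} (hs : 3 ≤ s) (A : Finset (Fin n × Fin n)) :
    Contains (J s) A ↔ Has 1 ((s : ℤ) - 1) (A.map (phi n)) := by
  have hs0 : 0 < s := by omega
  constructor
  · rintro ⟨r, c, hr, hc, hM⟩
    refine ⟨phi n (r (fi s hs0 (s - 1)), c (fi s hs0 0)), ?_,
      fun j => phi n (r (fi s hs0 (j - 1)), c (fi s hs0 j)), ?_, ?_, ?_, ?_⟩
    · refine Finset.mem_map_of_mem _ (hM (fi s hs0 (s - 1), fi s hs0 0) ?_)
      have h1 := fi_val hs0 (j := (s : ℤ) - 1) (by omega) (by omega)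
      have h2 := fi_val hs0 (j := 0) le_rfl (by omega)
      simp only [J, Finset.mem_filter, Finset.mem_univ, true_and]
      right
      constructor <;> omega
    · intro j g1 g2
      have h1 := fi_val hs0 (j := j - 1) (by omega) (by omega)
      have h2 := fi_val hs0 (j := j) (by omega) (by omega)
      have h3 := fi_val hs0 (j := j + 1) (by omega) (by omega)
      have e : j + 1 - 1 = j := by ring
      have h4 : c (fi s hs0 j) < c (fi s hs0 (j + 1)) := hc (Fin.lt_def.mpr (by omega))
      have h5 : r (fi s hs0 (j - 1)) < r (fi s hs0 j) := hr (Fin.lt_def.mpr (by omega))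
      rw [Fin.lt_def] at h4 h5
      simp only [phi, Function.Embedding.coeFn_mk, e]
      constructor <;> omega
    · intro j g1 g2
      refine Finset.mem_map_of_mem _ (hM (fi s hs0 (j - 1), fi s hs0 j) ?_)
      have h1 := fi_val hs0 (j := j - 1) (by omega) (by omega)
      have h2 := fi_val hs0 (j := j) (by omega) (by omega)
      simp only [J, Finset.mem_filter, Finset.mem_univ, true_and]
      left
      omega
    · have h1 := fi_val hs0 (j := 0) (by omega) (by omega)
      have h2 := fi_val hs0 (j := 1) (by omega) (by omega)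
      have h4 : c (fi s hs0 0) < c (fi s hs0 1) := hc (Fin.lt_def.mpr (by omega))
      rw [Fin.lt_def] at h4
      simp only [phi, Function.Embedding.coeFn_mk]
      omega
    · have h1 := fi_val hs0 (j := (s : ℤ) - 1 - 1) (by omega) (by omega)
      have h2 := fi_val hs0 (j := (s : ℤ) - 1) (by omega) (by omega)
      have h4 : r (fi s hs0 ((s : ℤ) - 1 - 1)) < r (fi s hs0 ((s : ℤ) - 1)) :=
        hr (Fin.lt_def.mpr (by omega))
      rw [Fin.lt_def] at h4
      simp only [phi, Function.Embedding.coeFn_mk]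
      omega
  · rintro ⟨w, hw, a, ha, haA, h1, h2⟩
    obtain ⟨uw, huw, rfl⟩ := Finset.mem_map.mp hw
    obtain ⟨u, hu⟩ := pull (phi n) haA uw
    have hux : ∀ j, 1 ≤ j → j ≤ (s : ℤ) - 1 →
        (a j).1 = ((u j).2.val : ℤ) + 1 ∧ (a j).2 = (n : ℤ) - (u j).1.val := by
      intro j g1 g2
      rw [← (hu j g1 g2).2]
      exact ⟨rfl, rfl⟩
    have hw1 : (phi n uw).1 = (uw.2.val : ℤ) + 1 := rfl
    have hw2 : (phi n uw).2 = (n : ℤ) - uw.1.val := rfl
    refine ⟨fun i => if i.val + 1 = s then uw.1 else (u ((i.val : ℤ) + 1)).1,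
      fun j => if j.val = 0 then uw.2 else (u (j.val : ℤ)).2, ?_, ?_, ?_⟩
    · intro i j hij
      rw [Fin.lt_def] at hij
      have hj := j.isLt
      simp only
      rw [if_neg (show ¬ i.val + 1 = s by omega)]
      by_cases hc : j.val + 1 = s
      · rw [if_pos hc, Fin.lt_def]
        have h3 := hux ((i.val : ℤ) + 1) (by omega) (by omega)
        have h4 := ha.mono (i := (i.val : ℤ) + 1) (j := (s : ℤ) - 1) (by omega) (by omega)
          le_rfl
        omega
      · rw [if_neg hc, Fin.lt_def]
        have h3 := hux ((i.val : ℤ) + 1) (by omega) (by omega)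
        have h4 := hux ((j.val : ℤ) + 1) (by omega) (by omega)
        have h5 := ha.mono (i := (i.val : ℤ) + 1) (j := (j.val : ℤ) + 1) (by omega)
          (by omega) (by omega)
        omega
    · intro i j hij
      rw [Fin.lt_def] at hij
      have hj := j.isLt
      simp only
      rw [if_neg (show ¬ j.val = 0 by omega)]
      have h4 := hux (j.val : ℤ) (by omega) (by omega)
      by_cases hc : i.val = 0
      · rw [if_pos hc, Fin.lt_def]
        have h5 := ha.mono (i := 1) (j := (j.val : ℤ)) le_rfl (by omega) (by omega)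
        omega
      · rw [if_neg hc, Fin.lt_def]
        have h3 := hux (i.val : ℤ) (by omega) (by omega)
        have h5 := ha.mono (i := (i.val : ℤ)) (j := (j.val : ℤ)) (by omega)
          (by omega) (by omega)
        omega
    · rintro ⟨p, q⟩ hpq
      simp only [J, Finset.mem_filter, Finset.mem_univ, true_and] at hpq
      have hp := p.isLt
      have hq := q.isLt
      simp only
      rcases hpq with hpq | ⟨hpq1, hpq2⟩
      · rw [if_neg (show ¬ p.val + 1 = s by omega), if_neg (show ¬ q.val = 0 by omega)]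
        have e : (p.val : ℤ) + 1 = (q.val : ℤ) := by omega
        rw [e]
        exact (hu (q.val : ℤ) (by omega) (by omega)).1
      · rw [if_pos hpq1, if_pos hpq2]
        exact huw

theorem strong_iff {s n : ℕ} (hs : 3 ≤ s) (F : Finset (Fin n × Fin n)) :
    StrongCopy (veeLE s) F ↔ Has 0 (s : ℤ) (F.map (psi n)) := by
  classical
  have hs0 : 0 < s := by omega
  constructor
  · rintro ⟨f, hinj, hfF, hle⟩
    have hcomp : ∀ i j : Fin s, f (some i) ≤ f (some j) → i = j := by
      intro i j h
      rcases (hle (some i) (some j)).mpr h with h' | h'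
      · exact absurd h' (by simp)
      · exact Option.some.inj h'
    have hxinj : Function.Injective (fun i : Fin s => (f (some i)).1) := by
      intro i j hij
      simp only at hij
      rcases le_total (f (some i)).2 (f (some j)).2 with h | h
      · exact hcomp i j (Prod.mk_le_mk.mpr ⟨hij.le, h⟩)
      · exact (hcomp j i (Prod.mk_le_mk.mpr ⟨hij.ge, h⟩)).symm
    have hcard : (Finset.univ.image (fun i : Fin s => (f (some i)).1)).card = s := by
      rw [Finset.card_image_of_injective _ hxinj, Finset.card_univ, Fintype.card_fin]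
    let e := (Finset.univ.image (fun i : Fin s => (f (some i)).1)).orderEmbOfFin hcard
    have hidx : ∀ j : Fin s, ∃ i : Fin s, (f (some i)).1 = e j := by
      intro j
      have := Finset.orderEmbOfFin_mem _ hcard j
      obtain ⟨i, _, hi⟩ := Finset.mem_image.mp this
      exact ⟨i, hi⟩
    choose idx hidx using hidx
    have hstep : ∀ i j : Fin s, i < j → (f (some (idx i))).1 < (f (some (idx j))).1 ∧
        (f (some (idx j))).2 < (f (some (idx i))).2 := by
      intro i j hij
      have h1 : (f (some (idx i))).1 < (f (some (idx j))).1 := by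
        rw [hidx, hidx]
        exact e.strictMono hij
      refine ⟨h1, ?_⟩
      by_contra hcon
      have h2 := hcomp _ _ (Prod.mk_le_mk.mpr ⟨h1.le, not_lt.mp hcon⟩)
      rw [h2] at h1
      exact lt_irrefl _ h1
    have hnone : ∀ i : Fin s, f none ≤ f (some i) := fun i =>
      (hle none (some i)).mp (Or.inl rfl)
    refine ⟨psi n (f none), Finset.mem_map_of_mem _ (hfF none),
      fun j => psi n (f (some (idx (fi s hs0 (j - 1))))), ?_, ?_, ?_, ?_⟩
    · intro j g1 g2
      have h1 := fi_val hs0 (j := j - 1) (by omega) (by omega)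
      have h2 := fi_val hs0 (j := j) (by omega) (by omega)
      have h3 := hstep (fi s hs0 (j - 1)) (fi s hs0 j) (Fin.lt_def.mpr (by omega))
      have e' : j + 1 - 1 = j := by ring
      rw [Fin.lt_def, Fin.lt_def] at h3
      simp only [psi, Function.Embedding.coeFn_mk, e']
      constructor <;> omega
    · intro j g1 g2
      exact Finset.mem_map_of_mem _ (hfF _)
    · have h1 := (hnone (idx (fi s hs0 (1 - 1)))).1
      rw [Fin.le_def] at h1
      simp only [psi, Function.Embedding.coeFn_mk]
      omega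
    · have h1 := (hnone (idx (fi s hs0 ((s : ℤ) - 1)))).2
      rw [Fin.le_def] at h1
      simp only [psi, Function.Embedding.coeFn_mk]
      omega
  · rintro ⟨w, hw, a, ha, haA, h1, h2⟩
    obtain ⟨uw, huw, rfl⟩ := Finset.mem_map.mp hw
    obtain ⟨u, hu⟩ := pull (psi n) haA uw
    have hux : ∀ j, 1 ≤ j → j ≤ (s : ℤ) →
        (a j).1 = ((u j).1.val : ℤ) + 1 ∧ (a j).2 = ((u j).2.val : ℤ) + 1 := by
      intro j g1 g2
      rw [← (hu j g1 g2).2]
      exact ⟨rfl, rfl⟩
    have hw1 : (psi n uw).1 = (uw.1.val : ℤ) + 1 := rfl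
    have hw2 : (psi n uw).2 = (uw.2.val : ℤ) + 1 := rfl
    let f : Option (Fin s) → Fin n × Fin n := fun p =>
      match p with
      | none => uw
      | some i => u ((i.val : ℤ) + 1)
    have hf0 : f none = uw := rfl
    have hf1 : ∀ i : Fin s, f (some i) = u ((i.val : ℤ) + 1) := fun i => rfl
    have hle : ∀ p q, veeLE s p q ↔ f p ≤ f q := by
      intro p q
      rcases p with _ | i
      · rcases q with _ | j
        · exact ⟨fun _ => le_rfl, fun _ => Or.inl rfl⟩
        · refine ⟨fun _ => ?_, fun _ => Or.inl rfl⟩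
          rw [hf0, hf1]
          have hj := j.isLt
          have h3 := hux ((j.val : ℤ) + 1) (by omega) (by omega)
          have h4 := ha.mono (i := 1) (j := (j.val : ℤ) + 1) le_rfl (by omega) (by omega)
          have h5 := ha.mono (i := (j.val : ℤ) + 1) (j := (s : ℤ)) (by omega) (by omega) le_rfl
          refine Prod.mk_le_mk.mpr ⟨Fin.le_def.mpr ?_, Fin.le_def.mpr ?_⟩ <;> omega
      · rcases q with _ | j
        · constructor
          · rintro (h | h) <;> exact absurd h (by simp)
          · intro h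
            exfalso
            rw [hf0, hf1] at h
            have hi := i.isLt
            have h3 := hux ((i.val : ℤ) + 1) (by omega) (by omega)
            have h4 := ha.mono (i := 1) (j := (i.val : ℤ) + 1) le_rfl (by omega) (by omega)
            have h5 := ha.mono (i := (i.val : ℤ) + 1) (j := (s : ℤ)) (by omega) (by omega)
              le_rfl
            have h6 := Fin.le_def.mp h.1
            have h7 := Fin.le_def.mp h.2
            omega
        · constructor
          · rintro (h | h)
            · exact absurd h (by simp)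
            · rw [h]
          · intro h
            rw [hf1, hf1] at h
            have hi := i.isLt
            have hj := j.isLt
            have h6 := Fin.le_def.mp h.1
            have h7 := Fin.le_def.mp h.2
            have h3 := hux ((i.val : ℤ) + 1) (by omega) (by omega)
            have h3' := hux ((j.val : ℤ) + 1) (by omega) (by omega)
            right
            congr 1
            refine Fin.ext ?_
            rcases lt_trichotomy i.val j.val with h8 | h8 | h8
            · have h4 := ha.mono (i := (i.val : ℤ) + 1) (j := (j.val : ℤ) + 1) (by omega)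
                (by omega) (by omega)
              omega
            · exact h8
            · have h4 := ha.mono (i := (j.val : ℤ) + 1) (j := (i.val : ℤ) + 1) (by omega)
                (by omega) (by omega)
              omega
    refine ⟨f, ?_, ?_, hle⟩
    · intro p q hpq
      have h3 := (hle p q).mpr hpq.le
      have h4 := (hle q p).mpr hpq.ge
      rcases h3 with h3 | h3
      · rcases h4 with h4 | h4
        · rw [h3, h4]
        · exact h4.symm
      · exact h3
    · intro p
      rcases p with _ | i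
      · exact huw
      · have hi := i.isLt
        exact (hu ((i.val : ℤ) + 1) (by omega) (by omega)).1

/-- Every `J_s`-saturated matrix has the same number of 1-entries. -/
theorem matrix_purity {s n : ℕ} (hs : 3 ≤ s) (A : Finset (Fin n × Fin n))
    (hA : MatrixSaturated (J s) A) : A.card = n ^ 2 - (n + 1 - s) ^ 2 := by
  have h := satZ_of (phi n) phi_box (fun z hz => phi_surj hz) _ (contains_iff hs) hA.1 hA.2
  have h1 := card_one (by omega) h
  rw [Finset.card_map] at h1
  have h2 := card_band n (s - 1)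
  have e1 : ((s - 1 : ℕ) : ℤ) = (s : ℤ) - 1 := by omega
  have e2 : n - (s - 1) = n + 1 - s := by omega
  rw [e1, e2] at h2
  rw [h1, h2]

/-- Every strong `∨_s`-saturated set has the same size. -/
theorem poset_purity {s n : ℕ} (hs : 3 ≤ s) (F : Finset (Fin n × Fin n))
    (hF : StrongSaturated (veeLE s) F) : F.card = n ^ 2 - (n + 1 - s) ^ 2 := by
  have h := satZ_of (psi n) psi_box (fun z hz => psi_surj hz) _ (strong_iff hs) hF.1 hF.2
  have h1 := card_zero (by omega) h
  rw [Finset.card_map] at h1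
  have h2 := card_band n (s - 1)
  have e1 : ((s - 1 : ℕ) : ℤ) = (s : ℤ) - 1 := by omega
  have e2 : n - (s - 1) = n + 1 - s := by omega
  rw [e1, e2] at h2
  rw [h1, h2]

/-- From purity to the extremal and the saturation number. -/
theorem extremal_of_pure {α : Type*} [Fintype α] [DecidableEq α] (C : Finset α → Prop)
    (h0 : ¬ C ∅) (N : ℕ)
    (hpure : ∀ A, (¬ C A ∧ ∀ v, v ∉ A → C (insert v A)) → A.card = N) :
    sSup {c | ∃ A : Finset α, ¬ C A ∧ A.card = c} = N ∧
      sInf {c | ∃ A : Finset α, (¬ C A ∧ ∀ v, v ∉ A → C (insert v A)) ∧ A.card = c} = N := by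
  classical
  -- every free set lies in a saturated one
  have hext : ∀ A : Finset α, ¬ C A →
      ∃ B, A ⊆ B ∧ (¬ C B ∧ ∀ v, v ∉ B → C (insert v B)) := by
    intro A hA
    obtain ⟨B, hB, hmax⟩ := Finset.exists_max_image
      ((Finset.univ : Finset (Finset α)).filter (fun B => A ⊆ B ∧ ¬ C B)) Finset.card
      ⟨A, by simp [hA]⟩
    simp only [Finset.mem_filter, Finset.mem_univ, true_and] at hB hmax
    refine ⟨B, hB.1, hB.2, ?_⟩
    intro v hv
    by_contra hcon
    have := hmax (insert v B) ⟨hB.1.trans (Finset.subset_insert _ _), hcon⟩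
    rw [Finset.card_insert_of_notMem hv] at this
    omega
  obtain ⟨B0, _, hB0⟩ := hext ∅ h0
  constructor
  · apply le_antisymm
    · refine csSup_le ⟨_, ∅, h0, rfl⟩ ?_
      rintro c ⟨A, hA, rfl⟩
      obtain ⟨B, hAB, hB⟩ := hext A hA
      rw [← hpure B hB]
      exact Finset.card_le_card hAB
    · refine le_csSup ⟨Fintype.card α, ?_⟩ ⟨B0, hB0.1, hpure B0 hB0⟩
      rintro c ⟨A, hA, rfl⟩
      exact Finset.card_le_univ A
  · apply le_antisymm
    · exact Nat.sInf_le ⟨B0, hB0, hpure B0 hB0⟩
    · obtain ⟨A, hA, hc⟩ := Nat.sInf_mem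
        (s := {c | ∃ A : Finset α, (¬ C A ∧ ∀ v, v ∉ A → C (insert v A)) ∧ A.card = c})
        ⟨_, B0, hB0, rfl⟩
      rw [← hc, hpure A hA]

/-- For all `s ≥ 3` and `n ≥ 1`: all `J_s`-saturated `n × n` matrices and all strong
`∨_s`-saturated subsets of `[n]²` have exactly `n² - (n+1-s)²` elements (`n+1-s` is read as `0`
when `n+1 < s`), and the four numbers of the problem are equal to this number. -/
theorem result (s n : ℕ) (hs : 3 ≤ s) (_hn : 1 ≤ n) :
    (sat n n (J s) = ex n n (J s) ∧ ex n n (J s) = satStar n (veeLE s) ∧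
      satStar n (veeLE s) = LaStar n (veeLE s)) ∧
    LaStar n (veeLE s) = n ^ 2 - (n + 1 - s) ^ 2 ∧
    (∀ A : Finset (Fin n × Fin n), MatrixSaturated (J s) A →
      A.card = n ^ 2 - (n + 1 - s) ^ 2) ∧
    (∀ F : Finset (Fin n × Fin n), StrongSaturated (veeLE s) F →
      F.card = n ^ 2 - (n + 1 - s) ^ 2) := by
  have hs0 : 0 < s := by omega
  have e1 : ¬ Contains (J s) (∅ : Finset (Fin n × Fin n)) := by
    rintro ⟨r, c, _, _, hM⟩
    have h1 := fi_val hs0 (j := 0) le_rfl (by omega)
    have h2 := fi_val hs0 (j := 1) (by omega) (by omega)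
    have := hM (fi s hs0 0, fi s hs0 1) (by
      simp only [J, Finset.mem_filter, Finset.mem_univ, true_and]
      left
      omega)
    simp at this
  have e2 : ¬ StrongCopy (veeLE s) (∅ : Finset (Fin n × Fin n)) := by
    rintro ⟨f, _, hf, _⟩
    have := hf none
    simp at this
  obtain ⟨a1, a2⟩ := extremal_of_pure (fun A : Finset (Fin n × Fin n) => Contains (J s) A) e1
    (n ^ 2 - (n + 1 - s) ^ 2) (fun A hA => matrix_purity hs A hA)
  obtain ⟨b1, b2⟩ := extremal_of_pure
    (fun F : Finset (Fin n × Fin n) => StrongCopy (veeLE s) F) e2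
    (n ^ 2 - (n + 1 - s) ^ 2) (fun F hF => poset_purity hs F hF)
  have a1' : ex n n (J s) = n ^ 2 - (n + 1 - s) ^ 2 := a1
  have a2' : sat n n (J s) = n ^ 2 - (n + 1 - s) ^ 2 := a2
  have b1' : LaStar n (veeLE s) = n ^ 2 - (n + 1 - s) ^ 2 := b1
  have b2' : satStar n (veeLE s) = n ^ 2 - (n + 1 - s) ^ 2 := b2
  exact ⟨⟨a2'.trans a1'.symm, a1'.trans b2'.symm, b2'.trans b1'.symm⟩, b1',
    fun A hA => matrix_purity hs A hA, fun F hF => poset_purity hs F hF⟩

end Pool.Agent.Results.MP_eab1c6_co.SaturationPurity
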